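import Pool.Agent.Y477.Crit2

set_option autoImplicit false

/-! Automorphisms of hyperbolic forms over the integral group ring of any group with an orientation
character which are closer than `√2` to an isometric automorphism. -/

namespace Pool.Agent.Results.MP_c13a79_gt.CloseAutomorphisms

open TH57.Thr TH6.LF TH6.PF Matrix

theorem result (Γ : Type) [Group Γ] (w : Γ →* ℤˣ) (ε : ℤ) (hε : ε = 1 ∨ ε = -1) (k : ℕ)
    (α β β' : Matrix (Fin k ⊕ Fin k) (Fin k ⊕ Fin k) (MonoidAlgebra ℤ Γ)) (c : ℝ)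
    (hc : c ^ 2 < 2)
    (hα : α * (hyp (MonoidAlgebra ℤ Γ) (Fin k) + ε • sadj w (hyp (MonoidAlgebra ℤ Γ) (Fin k)))
      * sadj w α = hyp (MonoidAlgebra ℤ Γ) (Fin k) + ε • sadj w (hyp (MonoidAlgebra ℤ Γ) (Fin k)))
    (hβ : β * (hyp (MonoidAlgebra ℤ Γ) (Fin k) + ε • sadj w (hyp (MonoidAlgebra ℤ Γ) (Fin k)))
      * sadj w β = hyp (MonoidAlgebra ℤ Γ) (Fin k) + ε • sadj w (hyp (MonoidAlgebra ℤ Γ) (Fin k)))
    (h1 : β * β' = 1) (h2 : β' * β = 1) (h3 : NormLE β' 1) (hαβ : NormLE (α - β) c) :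
    ∃ (T : Finset (Fin k ⊕ Fin k))
      (N : Matrix (Fin k ⊕ Fin k) (Fin k ⊕ Fin k) (MonoidAlgebra ℤ Γ)),
      (∀ i, i ∈ T ↔ i.swap ∉ T) ∧ (∀ i j, N i j ≠ 0 → i ∉ T ∧ j ∈ T) ∧ α = (1 + N) * β := by
  rw [Y477.Crit.Hf_eq] at hα hβ
  obtain ⟨T, hT1, hT2⟩ := Y477.Crit.near_iso w ε hε α β β' c hc hα hβ h1 h2 h3 hαβ
  refine ⟨T, α * β' - 1, hT1, hT2, ?_⟩
  rw [add_sub_cancel, mul_assoc, h2, mul_one]

end Pool.Agent.Results.MP_c13a79_gt.CloseAutomorphisms
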